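import Mathlib
import Pool.Agent.TH198.AT.Stmts

set_option autoImplicit false

open MeasureTheory ProbabilityTheory Set Filter Topology

namespace Pool.TH325.AT

open Pool.TH198.AT

/-! ### Gaussian expectations with parameters -/

theorem E1_const (c : ℝ) : E1 (fun _ => c) = c := by
  unfold E1; simp

theorem E1_bd {F : ℝ → ℝ} {C : ℝ} (h : ∀ y, |F y| ≤ C) : |E1 F| ≤ C := by
  unfold E1
  have h1 := norm_integral_le_of_norm_le_const (μ := gaussianReal 0 1)
    (Filter.Eventually.of_forall fun y => (by simpa using h y : ‖F y‖ ≤ C))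
  simpa using h1

theorem cont_E1 {X : Type*} [TopologicalSpace X] [FirstCountableTopology X] {Φ : X → ℝ → ℝ} {C : ℝ}
    (h : Continuous (fun p : X × ℝ => Φ p.1 p.2)) (hb : ∀ x y, |Φ x y| ≤ C) :
    Continuous (fun x => E1 (Φ x)) := by
  unfold E1
  apply continuous_of_dominated (F := fun x y => Φ x y) (bound := fun _ => C)
  · intro x
    exact (h.comp (by fun_prop : Continuous fun y : ℝ => (x, y))).aestronglyMeasurable
  · intro x
    exact Filter.Eventually.of_forall (fun y => by simpa using hb x y)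
  · exact integrable_const C
  · exact Filter.Eventually.of_forall (fun y => h.comp (by fun_prop : Continuous fun x : X => (x, y)))

/-! ### The integral term -/

/-- `∫_t^q ρ(r) (P_{a(r-t)} Φ(r,·))(x) dr` -/
noncomputable def RR (a q : ℝ) (ρ : ℝ → ℝ) (Φ : ℝ → ℝ → ℝ) (t x : ℝ) : ℝ :=
  ∫ r in t..q, ρ r * E1 (fun z => Φ r (x + √(a * (r - t)) * z))

variable {a q : ℝ} {ρ : ℝ → ℝ} {Φ Φ1 Φ2 : ℝ → ℝ → ℝ} {C : ℝ}

theorem cont_k (hΦ : Continuous (fun p : ℝ × ℝ => Φ p.1 p.2)) (hb : ∀ r x, |Φ r x| ≤ C) :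
    Continuous (fun p : ℝ × ℝ × ℝ => E1 (fun z => Φ p.1 (p.2.1 + √p.2.2 * z))) := by
  apply cont_E1 (C := C)
  · exact hΦ.comp (by fun_prop : Continuous fun p : (ℝ × ℝ × ℝ) × ℝ =>
      (p.1.1, p.1.2.1 + √p.1.2.2 * p.2))
  · intro p y; exact hb _ _

theorem RR_meas (hρ : Measurable ρ) (hΦ : Continuous (fun p : ℝ × ℝ => Φ p.1 p.2))
    (hb : ∀ r x, |Φ r x| ≤ C) (t x : ℝ) :
    Measurable (fun r => ρ r * E1 (fun z => Φ r (x + √(a * (r - t)) * z))) := by
  apply hρ.mul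
  exact ((cont_k hΦ hb).comp (by fun_prop : Continuous fun r : ℝ =>
    (r, x, a * (r - t)))).measurable

theorem RR_bd (hρb : ∀ r, |ρ r| ≤ 1) (hb : ∀ r x, |Φ r x| ≤ C) (t x r : ℝ) :
    |ρ r * E1 (fun z => Φ r (x + √(a * (r - t)) * z))| ≤ C := by
  have hC : 0 ≤ C := (abs_nonneg _).trans (hb 0 0)
  rw [abs_mul]
  have h1 : |E1 (fun z => Φ r (x + √(a * (r - t)) * z))| ≤ C := E1_bd (fun z => hb _ _)
  calc |ρ r| * |E1 (fun z => Φ r (x + √(a * (r - t)) * z))| ≤ 1 * C :=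
        mul_le_mul (hρb r) h1 (abs_nonneg _) zero_le_one
    _ = C := one_mul C

theorem RR_int (hρ : Measurable ρ) (hρb : ∀ r, |ρ r| ≤ 1)
    (hΦ : Continuous (fun p : ℝ × ℝ => Φ p.1 p.2)) (hb : ∀ r x, |Φ r x| ≤ C) (t x u v : ℝ) :
    IntervalIntegrable (fun r => ρ r * E1 (fun z => Φ r (x + √(a * (r - t)) * z))) volume u v := by
  refine (intervalIntegrable_const (c := C)).mono_fun
    (RR_meas hρ hΦ hb t x).aestronglyMeasurable ?_
  refine Filter.Eventually.of_forall fun r => ?_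
  have h1 := RR_bd (a := a) hρb hb t x r
  simp only [Real.norm_eq_abs]
  exact h1.trans (le_abs_self _)

/-- derivative in `x` -/
theorem RR_x (hX : St_HEATX) (hρ : Measurable ρ) (hρb : ∀ r, |ρ r| ≤ 1)
    (hΦ : Continuous (fun p : ℝ × ℝ => Φ p.1 p.2)) (hb : ∀ r x, |Φ r x| ≤ C)
    (hΦ1 : Continuous (fun p : ℝ × ℝ => Φ1 p.1 p.2)) (hb1 : ∀ r x, |Φ1 r x| ≤ C)
    (hd : ∀ r x, HasDerivAt (Φ r) (Φ1 r x) x) (t x : ℝ) :
    HasDerivAt (RR a q ρ Φ t) (RR a q ρ Φ1 t x) x := by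
  unfold RR
  refine (intervalIntegral.hasDerivAt_integral_of_dominated_loc_of_deriv_le
    (F := fun x r => ρ r * E1 (fun z => Φ r (x + √(a * (r - t)) * z)))
    (F' := fun x r => ρ r * E1 (fun z => Φ1 r (x + √(a * (r - t)) * z)))
    (bound := fun _ => C) (s := univ) univ_mem ?_ ?_ ?_ ?_ ?_ ?_).2
  · exact Filter.Eventually.of_forall fun x => (RR_meas hρ hΦ hb t x).aestronglyMeasurable
  · exact RR_int hρ hρb hΦ hb t x t q
  · exact (RR_meas hρ hΦ1 hb1 t x).aestronglyMeasurable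
  · refine Filter.Eventually.of_forall fun r _ x _ => ?_
    rw [Real.norm_eq_abs]; exact RR_bd hρb hb1 t x r
  · exact intervalIntegrable_const
  · refine Filter.Eventually.of_forall fun r _ x _ => ?_
    exact (hX (Φ r) (Φ1 r) C (hd r)
      (hΦ1.comp (by fun_prop : Continuous fun x : ℝ => (r, x))) (hb1 r) _ x).const_mul _

/-- joint continuity -/
theorem RR_cont (hρ : Measurable ρ) (hρb : ∀ r, |ρ r| ≤ 1)
    (hΦ : Continuous (fun p : ℝ × ℝ => Φ p.1 p.2)) (hb : ∀ r x, |Φ r x| ≤ C) :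
    Continuous (fun p : ℝ × ℝ => RR a q ρ Φ p.1 p.2) := by
  rw [continuous_iff_continuousAt]
  rintro ⟨t₀, x₀⟩
  have h1 : ContinuousAt (fun p : (ℝ × ℝ) × ℝ => ∫ r in q..p.2,
      ρ r * E1 (fun z => Φ r (p.1.2 + √(a * (r - p.1.1)) * z))) ((t₀, x₀), t₀) := by
    refine intervalIntegral.continuousAt_parametric_primitive_of_dominated
      (F := fun (p : ℝ × ℝ) r => ρ r * E1 (fun z => Φ r (p.2 + √(a * (r - p.1)) * z)))
      (fun _ => C) (min q t₀ - 1) (max q t₀ + 1) ?_ ?_ ?_ ?_ ?_ ?_ ?_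
    · intro p; exact (RR_meas hρ hΦ hb p.1 p.2).aestronglyMeasurable
    · refine Filter.Eventually.of_forall fun p => Filter.Eventually.of_forall fun r => ?_
      rw [Real.norm_eq_abs]; exact RR_bd hρb hb p.1 p.2 r
    · exact intervalIntegrable_const
    · refine Filter.Eventually.of_forall fun r => ?_
      apply ContinuousAt.mul continuousAt_const
      exact ((cont_k hΦ hb).comp (by fun_prop : Continuous fun p : ℝ × ℝ =>
        (r, p.2, a * (r - p.1)))).continuousAt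
    · exact ⟨by have := min_le_left q t₀; linarith, by have := le_max_left q t₀; linarith⟩
    · exact ⟨by have := min_le_right q t₀; linarith, by have := le_max_right q t₀; linarith⟩
    · simp
  have h2 : ContinuousAt (fun p : ℝ × ℝ => (p, p.1)) (t₀, x₀) := by fun_prop
  have h3 := (ContinuousAt.comp (f := fun p : ℝ × ℝ => (p, p.1)) (x := (t₀, x₀)) h1 h2).neg
  refine h3.congr (Filter.Eventually.of_forall fun p => ?_)
  simp only [RR]
  rw [intervalIntegral.integral_symm]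
  simp

/-- right derivative in `t` -/
theorem RR_t (hH : St_HEAT) (hL : St_LEIB) (ha : 0 < a) (hρ : Measurable ρ)
    (hρb : ∀ r, |ρ r| ≤ 1)
    (hΦ : Continuous (fun p : ℝ × ℝ => Φ p.1 p.2)) (hb : ∀ r x, |Φ r x| ≤ C)
    (hΦ2 : Continuous (fun p : ℝ × ℝ => Φ2 p.1 p.2)) (hb2 : ∀ r x, |Φ2 r x| ≤ C)
    (hc : ∀ r, C2b (Φ r) (Φ1 r) (Φ2 r)) {t : ℝ} (ht : t < q)
    (hρt : ContinuousWithinAt ρ (Ici t) t) (x : ℝ) :
    HasDerivWithinAt (fun τ => RR a q ρ Φ τ x)
      (-(ρ t * Φ t x) - a / 2 * RR a q ρ Φ2 t x) (Ici t) t := by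
  have h1 := hL a t q 1 ρ (fun r w => E1 (fun z => Φ r (x + √w * z)))
    (fun r w => E1 (fun z => Φ2 r (x + √w * z)) / 2) ha ht hρ (fun r _ => hρb r) hρt
    (fun r _ w hw => (hH (Φ r) (Φ1 r) (Φ2 r) (hc r)).1 x w hw)
    ((cont_k hΦ hb).comp (by fun_prop : Continuous fun p : ℝ × ℝ => (p.1, x, p.2))).continuousOn
    (((cont_k hΦ2 hb2).comp (by fun_prop : Continuous fun p : ℝ × ℝ =>
      (p.1, x, p.2))).div_const 2).continuousOn
  have h2 : -(ρ t * Φ t x) - a / 2 * RR a q ρ Φ2 t x =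
      -(ρ t * E1 (fun z => Φ t (x + √0 * z))) -
        a * ∫ r in t..q, ρ r * (E1 (fun z => Φ2 r (x + √(a * (r - t)) * z)) / 2) := by
    have h3 : E1 (fun z => Φ t (x + √0 * z)) = Φ t x := by
      have : (fun z : ℝ => Φ t (x + √0 * z)) = fun _ => Φ t x := by
        funext z; simp
      rw [this, E1_const]
    have h4 : (∫ r in t..q, ρ r * (E1 (fun z => Φ2 r (x + √(a * (r - t)) * z)) / 2)) =
        RR a q ρ Φ2 t x / 2 := by
      unfold RR
      rw [← intervalIntegral.integral_div]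
      congr 1
      funext r; ring
    rw [h3, h4]; ring
  rw [h2]
  exact h1

end Pool.TH325.AT
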