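import Mathlib
import Pool.Agent.TH325.AT.Reg

set_option autoImplicit false

open MeasureTheory ProbabilityTheory Set Filter Topology

namespace Pool.TH325.AT

open Pool.TH198.AT

/-! ### `tanh` and its heat extension -/

noncomputable def th1 (x : ℝ) : ℝ := 1 - Real.tanh x ^ 2
noncomputable def th2 (x : ℝ) : ℝ := -(2 * Real.tanh x * (1 - Real.tanh x ^ 2))

theorem tanh_sq_le (x : ℝ) : Real.tanh x ^ 2 ≤ 1 := by
  rw [sq_le_one_iff_abs_le_one, abs_le]
  exact ⟨(Real.neg_one_lt_tanh x).le, (Real.tanh_lt_one x).le⟩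

theorem abs_tanh (x : ℝ) : |Real.tanh x| ≤ 1 :=
  abs_le.mpr ⟨(Real.neg_one_lt_tanh x).le, (Real.tanh_lt_one x).le⟩

theorem hasDerivAt_tanh (x : ℝ) : HasDerivAt Real.tanh (th1 x) x := by
  have hc : Real.cosh x ≠ 0 := (Real.cosh_pos x).ne'
  have h := (Real.hasDerivAt_sinh x).div (Real.hasDerivAt_cosh x) hc
  have h2 : (fun x => Real.sinh x / Real.cosh x) = Real.tanh := by
    funext y; rw [Real.tanh_eq_sinh_div_cosh]
  rw [show (Real.sinh / Real.cosh : ℝ → ℝ) = Real.tanh from h2] at h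
  refine h.congr_deriv ?_
  unfold th1
  rw [Real.tanh_eq_sinh_div_cosh]
  field_simp

theorem continuous_tanh : Continuous Real.tanh := by
  rw [continuous_iff_continuousAt]
  exact fun x => (hasDerivAt_tanh x).continuousAt

theorem hasDerivAt_th1 (x : ℝ) : HasDerivAt th1 (th2 x) x := by
  have h := ((hasDerivAt_tanh x).pow 2).const_sub 1
  refine HasDerivAt.congr_deriv (f := th1) h ?_
  unfold th1 th2
  push_cast
  ring

theorem continuous_th1 : Continuous th1 := by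
  unfold th1; exact continuous_const.sub (continuous_tanh.pow 2)

theorem continuous_th2 : Continuous th2 := by
  unfold th2
  exact ((continuous_const.mul continuous_tanh).mul (continuous_const.sub (continuous_tanh.pow 2))).neg

theorem abs_th1 (x : ℝ) : |th1 x| ≤ 1 := by
  unfold th1
  have h1 := tanh_sq_le x
  have h2 := sq_nonneg (Real.tanh x)
  rw [abs_le]; constructor <;> linarith

theorem abs_th2 (x : ℝ) : |th2 x| ≤ 2 := by
  unfold th2
  have h1 := abs_tanh x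
  have h2 := abs_th1 x
  unfold th1 at h2
  rw [abs_neg, abs_mul, abs_mul, abs_of_pos (by norm_num : (0:ℝ) < 2)]
  nlinarith [abs_nonneg (Real.tanh x), abs_nonneg (1 - Real.tanh x ^ 2)]

theorem C2b_tanh : C2b Real.tanh th1 th2 :=
  ⟨hasDerivAt_tanh, hasDerivAt_th1, continuous_th2, 2, fun x =>
    ⟨(abs_th1 x).trans (by norm_num), abs_th2 x⟩⟩

/-- `P_{a(q-t)} F` -/
noncomputable def PP (a q : ℝ) (F : ℝ → ℝ) (t x : ℝ) : ℝ :=
  E1 (fun y => F (x + √(a * (q - t)) * y))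

variable {a q C : ℝ} {F F1 : ℝ → ℝ}

theorem PP_cont (hF : Continuous F) (hb : ∀ x, |F x| ≤ C) :
    Continuous (fun p : ℝ × ℝ => PP a q F p.1 p.2) := by
  unfold PP
  apply cont_E1 (C := C)
  · exact hF.comp (by fun_prop : Continuous fun p : (ℝ × ℝ) × ℝ =>
      p.1.2 + √(a * (q - p.1.1)) * p.2)
  · intro p y; exact hb _

theorem PP_bd (hb : ∀ x, |F x| ≤ C) (t x : ℝ) : |PP a q F t x| ≤ C := E1_bd fun _ => hb _

theorem PP_x (hX : St_HEATX) (hd : ∀ x, HasDerivAt F (F1 x) x) (hc : Continuous F1)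
    (hb : ∀ x, |F1 x| ≤ C) (t x : ℝ) : HasDerivAt (PP a q F t) (PP a q F1 t x) x :=
  hX F F1 C hd hc hb _ x

theorem PP_t (hH : St_HEAT) {F F1 F2 : ℝ → ℝ} (hc : C2b F F1 F2) (ha : 0 < a) {t : ℝ} (ht : t < q)
    (x : ℝ) : HasDerivAt (fun τ => PP a q F τ x) (-(a / 2 * PP a q F2 t x)) t := by
  have hv : 0 < a * (q - t) := mul_pos ha (by linarith)
  have h1 := (hH F F1 F2 hc).1 x (a * (q - t)) hv
  have h2 : HasDerivAt (fun τ : ℝ => a * (q - τ)) (-a) t := by
    have := ((hasDerivAt_id t).const_sub q).const_mul a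
    simpa using this
  have h3 := h1.comp t h2
  have h4 : -(a / 2 * PP a q F2 t x) = E1 (fun y => F2 (x + √(a * (q - t)) * y)) / 2 * -a := by
    unfold PP; ring
  rw [h4]
  exact h3

theorem PP_q (x : ℝ) : PP a q F q x = F x := by
  unfold PP
  have : (fun y : ℝ => F (x + √(a * (q - q)) * y)) = fun _ => F x := by
    funext y; simp
  rw [this, E1_const]

/-- the square of the heat extension of `tanh` and its derivatives -/
noncomputable def Q0 (a q t x : ℝ) : ℝ := PP a q Real.tanh t x ^ 2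
noncomputable def Q1 (a q t x : ℝ) : ℝ := 2 * PP a q Real.tanh t x * PP a q th1 t x
noncomputable def Q2 (a q t x : ℝ) : ℝ :=
  2 * PP a q th1 t x ^ 2 + 2 * PP a q Real.tanh t x * PP a q th2 t x

theorem Q0_cont : Continuous (fun p : ℝ × ℝ => Q0 a q p.1 p.2) :=
  (PP_cont continuous_tanh abs_tanh).pow 2

theorem Q1_cont : Continuous (fun p : ℝ × ℝ => Q1 a q p.1 p.2) :=
  (continuous_const.mul (PP_cont continuous_tanh abs_tanh)).mul (PP_cont continuous_th1 abs_th1)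

theorem Q2_cont : Continuous (fun p : ℝ × ℝ => Q2 a q p.1 p.2) :=
  (continuous_const.mul ((PP_cont continuous_th1 abs_th1).pow 2)).add
    ((continuous_const.mul (PP_cont continuous_tanh abs_tanh)).mul (PP_cont continuous_th2 abs_th2))

theorem Q0_bd (t x : ℝ) : |Q0 a q t x| ≤ 6 := by
  unfold Q0
  have h1 : |PP a q Real.tanh t x| ≤ 1 := PP_bd abs_tanh t x
  rw [abs_pow]
  nlinarith [abs_nonneg (PP a q Real.tanh t x)]

theorem Q1_bd (t x : ℝ) : |Q1 a q t x| ≤ 6 := by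
  unfold Q1
  have h1 : |PP a q Real.tanh t x| ≤ 1 := PP_bd abs_tanh t x
  have h2 : |PP a q th1 t x| ≤ 1 := PP_bd abs_th1 t x
  rw [abs_mul, abs_mul, abs_of_pos (by norm_num : (0:ℝ) < 2)]
  nlinarith [abs_nonneg (PP a q Real.tanh t x), abs_nonneg (PP a q th1 t x)]

theorem Q2_bd (t x : ℝ) : |Q2 a q t x| ≤ 6 := by
  unfold Q2
  have h1 : |PP a q Real.tanh t x| ≤ 1 := PP_bd abs_tanh t x
  have h2 : |PP a q th1 t x| ≤ 1 := PP_bd abs_th1 t x
  have h3 : |PP a q th2 t x| ≤ 2 := PP_bd abs_th2 t x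
  refine (abs_add_le _ _).trans ?_
  rw [abs_mul, abs_mul, abs_mul, abs_pow, abs_of_pos (by norm_num : (0:ℝ) < 2)]
  have h4 : |PP a q th1 t x| ^ 2 ≤ 1 := by
    nlinarith [abs_nonneg (PP a q th1 t x)]
  have h5 : |PP a q Real.tanh t x| * |PP a q th2 t x| ≤ 1 * 2 :=
    mul_le_mul h1 h3 (abs_nonneg _) zero_le_one
  nlinarith

theorem Q0_d (hX : St_HEATX) (t x : ℝ) : HasDerivAt (Q0 a q t) (Q1 a q t x) x := by
  have h1 := (PP_x (a := a) (q := q) hX hasDerivAt_tanh continuous_th1 abs_th1 t x).pow 2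
  refine HasDerivAt.congr_deriv (f := Q0 a q t) h1 ?_
  unfold Q1
  push_cast; ring

theorem Q1_d (hX : St_HEATX) (t x : ℝ) : HasDerivAt (Q1 a q t) (Q2 a q t x) x := by
  have h1 := PP_x (a := a) (q := q) hX hasDerivAt_tanh continuous_th1 abs_th1 t x
  have h2 := PP_x (a := a) (q := q) hX hasDerivAt_th1 continuous_th2 abs_th2 t x
  have h3 := (h1.const_mul 2).mul h2
  refine HasDerivAt.congr_deriv (f := Q1 a q t) h3 ?_
  unfold Q2
  ring

theorem Q_C2b (hX : St_HEATX) (r : ℝ) : C2b (Q0 a q r) (Q1 a q r) (Q2 a q r) := by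
  have hc : Continuous (fun x => Q2 a q r x) :=
    Continuous.comp (g := fun p : ℝ × ℝ => Q2 a q p.1 p.2) (f := fun x : ℝ => (r, x))
      (Q2_cont (a := a) (q := q)) (by fun_prop)
  exact ⟨Q0_d hX r, Q1_d hX r, hc, 6, fun x => ⟨Q1_bd r x, Q2_bd r x⟩⟩

end Pool.TH325.AT
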