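import Mathlib
import Pool.Agent.TH325.AT.Reg

set_option autoImplicit false

open MeasureTheory ProbabilityTheory Set Filter Topology

namespace Pool.TH325.AT

open Pool.TH198.AT

/-- `ζ` extended from `[0,1]` to the line -/
noncomputable def rho (ζ : ℝ → ℝ) (r : ℝ) : ℝ := ζ (max 0 (min r 1))

section rho
variable {ζ : ℝ → ℝ}

theorem clamp_mem (r : ℝ) : max 0 (min r 1) ∈ Icc (0 : ℝ) 1 :=
  ⟨le_max_left _ _, max_le zero_le_one (min_le_right _ _)⟩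

theorem rho_mono (hζ : IsCdf ζ) : Monotone (rho ζ) := by
  intro r s hrs
  exact hζ.1 (clamp_mem r) (clamp_mem s) (max_le_max le_rfl (min_le_min hrs le_rfl))

theorem rho_meas (hζ : IsCdf ζ) : Measurable (rho ζ) := (rho_mono hζ).measurable

theorem rho_nn (hζ : IsCdf ζ) (r : ℝ) : 0 ≤ rho ζ r := (hζ.2.1 _ (clamp_mem r)).1

theorem rho_bd (hζ : IsCdf ζ) (r : ℝ) : |rho ζ r| ≤ 1 := by
  rw [abs_of_nonneg (rho_nn hζ r)]
  exact (hζ.2.1 _ (clamp_mem r)).2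

theorem rho_eq {r : ℝ} (hr : r ∈ Icc (0 : ℝ) 1) : rho ζ r = ζ r := by
  unfold rho
  rw [min_eq_left hr.2, max_eq_right hr.1]

theorem rho_right (hζ : IsCdf ζ) {t : ℝ} (ht : t ∈ Ico (0 : ℝ) 1) :
    ContinuousWithinAt (rho ζ) (Ici t) t := by
  refine (hζ.2.2.2 t ht).congr_of_eventuallyEq ?_ (rho_eq ⟨ht.1, ht.2.le⟩)
  have h1 : Ico t 1 ∈ 𝓝[Ici t] t := Ico_mem_nhdsGE ht.2
  filter_upwards [h1] with r hr
  exact rho_eq ⟨ht.1.trans hr.1, hr.2.le⟩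

end rho

/-- the integrand of the Parisi equation -/
noncomputable def gi (β : ℝ) (ζ : ℝ → ℝ) (fx fxx : ℝ → ℝ → ℝ) (r y : ℝ) : ℝ :=
  β ^ 2 * (fxx r y + rho ζ r * fx r y ^ 2)

section sol
variable {β C : ℝ} {ζ : ℝ → ℝ} {f fx fxx : ℝ → ℝ → ℝ}

theorem slice (h : ContinuousOn (fun p : ℝ × ℝ => fx p.1 p.2) (Icc 0 1 ×ˢ univ)) (y : ℝ) :
    ContinuousOn (fun r => fx r y) (Icc 0 1) :=
  ContinuousOn.comp (g := fun p : ℝ × ℝ => fx p.1 p.2) (f := fun r : ℝ => (r, y)) h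
    (by fun_prop) (fun r hr => ⟨hr, mem_univ _⟩)

theorem gi_int (hζ : IsCdf ζ) (h1 : ContinuousOn (fun p : ℝ × ℝ => fx p.1 p.2) (Icc 0 1 ×ˢ univ))
    (h2 : ContinuousOn (fun p : ℝ × ℝ => fxx p.1 p.2) (Icc 0 1 ×ˢ univ)) (y : ℝ) :
    IntegrableOn (fun r => gi β ζ fx fxx r y) (Icc 0 1) := by
  unfold gi
  have hc2 : IntegrableOn (fun r => fxx r y) (Icc 0 1) :=
    (slice h2 y).integrableOn_compact isCompact_Icc
  have hc1 : ContinuousOn (fun r => fx r y ^ 2) (Icc 0 1) := (slice h1 y).pow 2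
  have hr : IntegrableOn (rho ζ) (Icc 0 1) := by
    have := (rho_mono hζ).monotoneOn (Icc 0 1)
    exact this.integrableOn_isCompact isCompact_Icc
  have h3 : IntegrableOn (fun r => rho ζ r * fx r y ^ 2) (Icc 0 1) :=
    hr.mul_continuousOn hc1 isCompact_Icc
  exact (hc2.add h3).const_mul _

theorem gi_ii (hζ : IsCdf ζ) (h1 : ContinuousOn (fun p : ℝ × ℝ => fx p.1 p.2) (Icc 0 1 ×ˢ univ))
    (h2 : ContinuousOn (fun p : ℝ × ℝ => fxx p.1 p.2) (Icc 0 1 ×ˢ univ)) (y : ℝ) {s t : ℝ}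
    (hs : s ∈ Icc (0 : ℝ) 1) (ht : t ∈ Icc (0 : ℝ) 1) :
    IntervalIntegrable (fun r => gi β ζ fx fxx r y) volume s t := by
  rw [intervalIntegrable_iff]
  refine (gi_int hζ h1 h2 y).mono_set ?_
  intro r hr
  rw [mem_uIoc] at hr
  rcases hr with h | h
  · exact ⟨hs.1.trans h.1.le, h.2.trans ht.2⟩
  · exact ⟨ht.1.trans h.1.le, h.2.trans hs.2⟩

theorem gi_bd (hζ : IsCdf ζ) (hC : ∀ t ∈ Icc (0 : ℝ) 1, ∀ x, |fx t x| ≤ C ∧ |fxx t x| ≤ C)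
    {r : ℝ} (hr : r ∈ Icc (0 : ℝ) 1) (y : ℝ) :
    ‖gi β ζ fx fxx r y‖ ≤ β ^ 2 * (C + C ^ 2) := by
  unfold gi
  obtain ⟨h1, h2⟩ := hC r hr y
  rw [Real.norm_eq_abs, abs_mul, abs_of_nonneg (sq_nonneg β)]
  refine mul_le_mul_of_nonneg_left ?_ (sq_nonneg β)
  refine (abs_add_le _ _).trans (add_le_add h2 ?_)
  rw [abs_mul, abs_pow]
  have h3 : |fx r y| ^ 2 ≤ C ^ 2 := pow_le_pow_left₀ (abs_nonneg _) h1 2
  calc |rho ζ r| * |fx r y| ^ 2 ≤ 1 * C ^ 2 :=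
        mul_le_mul (rho_bd hζ r) h3 (by positivity) zero_le_one
    _ = C ^ 2 := one_mul _

theorem sol_eq (heq : ∀ t ∈ Icc (0 : ℝ) 1, ∀ x, f t x =
      Real.log (Real.cosh x) + ∫ r in t..1, β ^ 2 * (fxx r x + ζ r * fx r x ^ 2))
    {t : ℝ} (ht : t ∈ Icc (0 : ℝ) 1) (y : ℝ) :
    f t y = Real.log (Real.cosh y) + ∫ r in t..1, gi β ζ fx fxx r y := by
  rw [heq t ht y]
  congr 1
  apply intervalIntegral.integral_congr
  intro r hr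
  rw [uIcc_of_le ht.2] at hr
  simp only [gi]
  rw [rho_eq ⟨ht.1.trans hr.1, hr.2⟩]

theorem sol_lip (hζ : IsCdf ζ) (h1 : ContinuousOn (fun p : ℝ × ℝ => fx p.1 p.2) (Icc 0 1 ×ˢ univ))
    (h2 : ContinuousOn (fun p : ℝ × ℝ => fxx p.1 p.2) (Icc 0 1 ×ˢ univ))
    (hC : ∀ t ∈ Icc (0 : ℝ) 1, ∀ x, |fx t x| ≤ C ∧ |fxx t x| ≤ C)
    (heq : ∀ t ∈ Icc (0 : ℝ) 1, ∀ x, f t x =
      Real.log (Real.cosh x) + ∫ r in t..1, β ^ 2 * (fxx r x + ζ r * fx r x ^ 2)) (y : ℝ)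
    {s t : ℝ} (hs : s ∈ Icc (0 : ℝ) 1) (ht : t ∈ Icc (0 : ℝ) 1) :
    |f s y - f t y| ≤ β ^ 2 * (C + C ^ 2) * |s - t| := by
  rw [sol_eq heq hs y, sol_eq heq ht y]
  have h3 : (1 : ℝ) ∈ Icc (0 : ℝ) 1 := ⟨zero_le_one, le_rfl⟩
  have h5 : (Real.log (Real.cosh y) + ∫ r in s..1, gi β ζ fx fxx r y) -
      (Real.log (Real.cosh y) + ∫ r in t..1, gi β ζ fx fxx r y) =
      ∫ r in s..t, gi β ζ fx fxx r y := by
    rw [← intervalIntegral.integral_add_adjacent_intervals (gi_ii (β := β) hζ h1 h2 y hs ht)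
      (gi_ii (β := β) hζ h1 h2 y ht h3)]
    ring
  rw [h5, abs_sub_comm s t]
  refine intervalIntegral.norm_integral_le_of_norm_le_const fun r hr => gi_bd hζ hC ?_ y
  rw [mem_uIoc] at hr
  rcases hr with h | h
  · exact ⟨hs.1.trans h.1.le, h.2.trans ht.2⟩
  · exact ⟨ht.1.trans h.1.le, h.2.trans hs.2⟩

theorem sol_cont (hζ : IsCdf ζ)
    (hd : ∀ t ∈ Icc (0 : ℝ) 1, ∀ x, HasDerivAt (f t) (fx t x) x ∧ HasDerivAt (fx t) (fxx t x) x)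
    (h1 : ContinuousOn (fun p : ℝ × ℝ => fx p.1 p.2) (Icc 0 1 ×ˢ univ))
    (h2 : ContinuousOn (fun p : ℝ × ℝ => fxx p.1 p.2) (Icc 0 1 ×ˢ univ))
    (hC : ∀ t ∈ Icc (0 : ℝ) 1, ∀ x, |fx t x| ≤ C ∧ |fxx t x| ≤ C)
    (heq : ∀ t ∈ Icc (0 : ℝ) 1, ∀ x, f t x =
      Real.log (Real.cosh x) + ∫ r in t..1, β ^ 2 * (fxx r x + ζ r * fx r x ^ 2)) :
    ContinuousOn (fun p : ℝ × ℝ => f p.1 p.2) (Icc 0 1 ×ˢ univ) := by
  have hC0 : 0 ≤ C := (abs_nonneg _).trans (hC 0 ⟨le_rfl, zero_le_one⟩ 0).1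
  have hK : 0 ≤ β ^ 2 * (C + C ^ 2) := by positivity
  refine continuousOn_prod_of_continuousOn_lipschitzOnWith (fun p : ℝ × ℝ => f p.1 p.2)
    ⟨β ^ 2 * (C + C ^ 2), hK⟩ ?_ ?_
  · intro t ht
    exact fun y _ => ((hd t ht y).1.continuousAt).continuousWithinAt
  · intro y _
    refine LipschitzOnWith.of_dist_le_mul fun s hs t ht => ?_
    rw [Real.dist_eq, Real.dist_eq]
    exact sol_lip hζ h1 h2 hC heq y hs ht

theorem sol_right (hζ : IsCdf ζ)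
    (h1 : ContinuousOn (fun p : ℝ × ℝ => fx p.1 p.2) (Icc 0 1 ×ˢ univ))
    (h2 : ContinuousOn (fun p : ℝ × ℝ => fxx p.1 p.2) (Icc 0 1 ×ˢ univ))
    (heq : ∀ t ∈ Icc (0 : ℝ) 1, ∀ x, f t x =
      Real.log (Real.cosh x) + ∫ r in t..1, β ^ 2 * (fxx r x + ζ r * fx r x ^ 2)) (y : ℝ)
    {t : ℝ} (ht : t ∈ Ico (0 : ℝ) 1) :
    HasDerivWithinAt (fun τ => f τ y) (-gi β ζ fx fxx t y) (Ici t) t := by
  have ht' : t ∈ Icc (0 : ℝ) 1 := ⟨ht.1, ht.2.le⟩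
  have h3 : (1 : ℝ) ∈ Icc (0 : ℝ) 1 := ⟨zero_le_one, le_rfl⟩
  have hsub : Icc t 1 ⊆ Icc (0 : ℝ) 1 := Icc_subset_Icc_left ht.1
  have hmem : Icc t 1 ∈ 𝓝[Ici t] t := Icc_mem_nhdsGE ht.2
  have hcw : ContinuousWithinAt (fun r => gi β ζ fx fxx r y) (Ici t) t := by
    have ha : ContinuousWithinAt (fun r => fx r y) (Ici t) t :=
      ((slice h1 y) t ht').mono_of_mem_nhdsWithin (Filter.mem_of_superset hmem hsub)
    have hb : ContinuousWithinAt (fun r => fxx r y) (Ici t) t :=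
      ((slice h2 y) t ht').mono_of_mem_nhdsWithin (Filter.mem_of_superset hmem hsub)
    exact (hb.add ((rho_right hζ ht).mul (ha.pow 2))).const_mul _
  have h4 : HasDerivWithinAt (fun τ => ∫ r in τ..1, gi β ζ fx fxx r y)
      (-gi β ζ fx fxx t y) (Ici t) t := by
    refine intervalIntegral.integral_hasDerivWithinAt_left (t := Ioi t)
      (gi_ii hζ h1 h2 y ht' h3) ?_ (hcw.mono Ioi_subset_Ici_self)
    refine ⟨Ioc t 1, Ioc_mem_nhdsGT ht.2, ?_⟩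
    exact ((gi_int hζ h1 h2 y).mono_set (Ioc_subset_Icc_self.trans hsub)).aestronglyMeasurable
  refine (h4.const_add (Real.log (Real.cosh y))).congr_of_eventuallyEq ?_ (sol_eq heq ht' y)
  filter_upwards [hmem] with τ hτ
  exact sol_eq heq (hsub hτ) y

end sol

end Pool.TH325.AT
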