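import Mathlib
import Pool.Agent.TH325.AT.Tanh
import Pool.Agent.TH325.AT.Fsol

set_option autoImplicit false

open MeasureTheory ProbabilityTheory Set Filter Topology

namespace Pool.TH325.AT

open Pool.TH198.AT

/-- a Lipschitz bound from a bounded derivative -/
theorem lip_of_deriv {g g1 : ℝ → ℝ} {C : ℝ} (hd : ∀ x, HasDerivAt g (g1 x) x)
    (hb : ∀ x, |g1 x| ≤ C) (x : ℝ) : |g x - g 0| ≤ C * |x| := by
  have h := Convex.norm_image_sub_le_of_norm_hasDerivWithin_le (s := univ) (f := g) (f' := g1)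
    (C := C) (x := 0) (y := x) (fun y _ => (hd y).hasDerivWithinAt) (fun y _ => by simpa using hb y)
    convex_univ (mem_univ _) (mem_univ _)
  simpa using h

theorem t_PH2 (hX : St_HEATX) (hH : St_HEAT) (hL : St_LEIB) (hM : St_MAX) : St_PH2 := by
  intro β q ζ f G G1 G2 hβ hq0 hq1 hζ hf hG hterm h
  obtain ⟨fx, fxx, hd, hc1, hc2, ⟨C, hC⟩, heq⟩ := hf
  set a : ℝ := 2 * β ^ 2 with ha_def
  have ha : 0 < a := by positivity
  have hβ2 : a / 2 = β ^ 2 := by rw [ha_def]; ring
  obtain ⟨CG, hCG⟩ := hG.2.2.2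
  have hCG0 : 0 ≤ CG := (abs_nonneg _).trans (hCG 0).1
  have hC0 : 0 ≤ C := (abs_nonneg _).trans (hC 0 ⟨le_rfl, zero_le_one⟩ 0).1
  have hG1c : Continuous G1 := continuous_iff_continuousAt.mpr fun x => (hG.2.1 x).continuousAt
  have hsub : Icc 0 q ⊆ Icc (0 : ℝ) 1 := Icc_subset_Icc_right hq1
  -- continuity of the heat extension of `G`
  have hPG : Continuous (fun p : ℝ × ℝ => PP a q G p.1 p.2) :=
    Continuous.comp (g := fun p : ℝ × ℝ => E1 (fun y => G (p.1 + √p.2 * y)))
      (f := fun p : ℝ × ℝ => (p.2, a * (q - p.1))) (hH G G1 G2 hG).2 (by fun_prop)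
  have hPA : Continuous (fun p : ℝ × ℝ => PP a q Real.tanh p.1 p.2) :=
    PP_cont continuous_tanh abs_tanh
  have hRR : Continuous (fun p : ℝ × ℝ => RR a q (rho ζ) (Q0 a q) p.1 p.2) :=
    RR_cont (rho_meas hζ) (rho_bd hζ) Q0_cont Q0_bd
  -- derivatives of the heat extension of `G`
  have hPG1 : ∀ t x, HasDerivAt (PP a q G t) (PP a q G1 t x) x := fun t x =>
    PP_x hX hG.1 hG1c (fun x => (hCG x).1) t x
  have hPG2 : ∀ t x, HasDerivAt (PP a q G1 t) (PP a q G2 t x) x := fun t x =>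
    PP_x hX hG.2.1 hG.2.2.1 (fun x => (hCG x).2) t x
  have hA1 : ∀ t x, HasDerivAt (PP a q Real.tanh t) (PP a q th1 t x) x := fun t x =>
    PP_x hX hasDerivAt_tanh continuous_th1 abs_th1 t x
  have hA2 : ∀ t x, HasDerivAt (PP a q th1 t) (PP a q th2 t x) x := fun t x =>
    PP_x hX hasDerivAt_th1 continuous_th2 abs_th2 t x
  have hR1 : ∀ t x, HasDerivAt (RR a q (rho ζ) (Q0 a q) t) (RR a q (rho ζ) (Q1 a q) t x) x :=
    fun t x => RR_x hX (rho_meas hζ) (rho_bd hζ) Q0_cont Q0_bd Q1_cont Q1_bd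
      (fun r x => Q0_d hX r x) t x
  have hR2 : ∀ t x, HasDerivAt (RR a q (rho ζ) (Q1 a q) t) (RR a q (rho ζ) (Q2 a q) t x) x :=
    fun t x => RR_x hX (rho_meas hζ) (rho_bd hζ) Q1_cont Q1_bd Q2_cont Q2_bd
      (fun r x => Q1_d hX r x) t x
  -- bound of `PP G` at `0`
  obtain ⟨M, hMb⟩ : ∃ M, ∀ t ∈ Icc 0 q, |PP a q G t 0| ≤ M := by
    have hcont : ContinuousOn (fun t => PP a q G t 0) (Icc 0 q) :=
      (Continuous.comp (g := fun p : ℝ × ℝ => PP a q G p.1 p.2) (f := fun t : ℝ => (t, 0)) hPG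
        (by fun_prop)).continuousOn
    obtain ⟨M, hM'⟩ := isCompact_Icc.exists_bound_of_continuousOn hcont
    exact ⟨M, fun t ht => by simpa using hM' t ht⟩
  have hM0 : 0 ≤ M := (abs_nonneg _).trans (hMb 0 ⟨le_rfl, hq0⟩)
  set K : ℝ := β ^ 2 * (C + C ^ 2) + M + CG + β ^ 2 * 6 + 1 + a with hK
  have hK1 : a ≤ K := by rw [hK]; nlinarith [sq_nonneg β, sq_nonneg C, mul_nonneg (sq_nonneg β) (add_nonneg hC0 (sq_nonneg C))]
  have hK0 : 0 ≤ K := ha.le.trans hK1
  have key := hM a 0 q K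
    (fun t x y => f t y - (PP a q G t x + β ^ 2 * RR a q (rho ζ) (Q0 a q) t x +
      (y - x) * PP a q Real.tanh t x))
    (fun t x y => -gi β ζ fx fxx t y - (-(a / 2 * PP a q G2 t x) +
      β ^ 2 * (-(rho ζ t * Q0 a q t x) - a / 2 * RR a q (rho ζ) (Q2 a q) t x) +
      (y - x) * -(a / 2 * PP a q th2 t x)))
    (fun t x y => fx t y - (PP a q G1 t x + β ^ 2 * RR a q (rho ζ) (Q1 a q) t x +
      (y - x) * PP a q th1 t x))
    (fun t x y => fxx t y - (PP a q G2 t x + β ^ 2 * RR a q (rho ζ) (Q2 a q) t x +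
      (y - x) * PP a q th2 t x))
    (fun t x y => -(PP a q G1 t x + β ^ 2 * RR a q (rho ζ) (Q1 a q) t x +
      ((y - x) * PP a q th1 t x - PP a q Real.tanh t x)))
    (fun t x y => fx t y - PP a q Real.tanh t x)
    (fun _ _ _ => 0)
    (fun t x _ => a * rho ζ t * PP a q Real.tanh t x)
    ha hq0 ?_ ?_ ?_ ?_ 0 ⟨le_rfl, hq0⟩ h h
  · -- conclusion
    have e1 : PP a q G 0 h = E1 (fun y => G (h + √(2 * β ^ 2 * q) * y)) := by
      unfold PP; rw [sub_zero]
    have e2 : RR a q (rho ζ) (Q0 a q) 0 h = ∫ r in (0 : ℝ)..q, ζ r * E1 (fun z => (E1 (fun y =>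
          Real.tanh (h + √(2 * β ^ 2 * r) * z + √(2 * β ^ 2 * (q - r)) * y))) ^ 2) := by
      unfold RR
      apply intervalIntegral.integral_congr
      intro r hr
      rw [uIcc_of_le hq0] at hr
      simp only [Q0, PP]
      rw [rho_eq (hsub hr), sub_zero]
    rw [e1, e2] at key
    simp only [sub_self, zero_mul, add_zero] at key
    linarith
  · -- continuity
    have hfc : ContinuousOn (fun p : ℝ × ℝ × ℝ => f p.1 p.2.2) (Icc 0 q ×ˢ univ) :=
      ContinuousOn.comp (g := fun p : ℝ × ℝ => f p.1 p.2) (f := fun p : ℝ × ℝ × ℝ => (p.1, p.2.2))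
        (sol_cont hζ hd hc1 hc2 hC heq) (by fun_prop) (fun p hp => ⟨hsub hp.1, mem_univ _⟩)
    have h1 : Continuous (fun p : ℝ × ℝ × ℝ => PP a q G p.1 p.2.1) :=
      Continuous.comp (g := fun p : ℝ × ℝ => PP a q G p.1 p.2)
        (f := fun p : ℝ × ℝ × ℝ => (p.1, p.2.1)) hPG (by fun_prop)
    have h2 : Continuous (fun p : ℝ × ℝ × ℝ => RR a q (rho ζ) (Q0 a q) p.1 p.2.1) :=
      Continuous.comp (g := fun p : ℝ × ℝ => RR a q (rho ζ) (Q0 a q) p.1 p.2)
        (f := fun p : ℝ × ℝ × ℝ => (p.1, p.2.1)) hRR (by fun_prop)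
    have h3 : Continuous (fun p : ℝ × ℝ × ℝ => PP a q Real.tanh p.1 p.2.1) :=
      Continuous.comp (g := fun p : ℝ × ℝ => PP a q Real.tanh p.1 p.2)
        (f := fun p : ℝ × ℝ × ℝ => (p.1, p.2.1)) hPA (by fun_prop)
    have h4 : Continuous (fun p : ℝ × ℝ × ℝ => p.2.2 - p.2.1) := by fun_prop
    exact hfc.sub ((h1.add (continuous_const.mul h2)).add (h4.mul h3)).continuousOn
  · -- derivatives
    intro t ht x y
    have ht01 : t ∈ Ico (0 : ℝ) 1 := ⟨ht.1, ht.2.trans_le hq1⟩
    have ht01' : t ∈ Icc (0 : ℝ) 1 := ⟨ht.1, ht01.2.le⟩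
    refine ⟨?_, ?_, ?_, ?_, ?_, ?_, ?_, ?_⟩
    · have g1 := sol_right (β := β) hζ hc1 hc2 heq y ht01
      have g2 := (PP_t (q := q) hH hG ha ht.2 x).hasDerivWithinAt (s := Ici t)
      have g3 := RR_t (q := q) hH hL ha (rho_meas hζ) (rho_bd hζ) Q0_cont Q0_bd Q2_cont Q2_bd
        (fun r => Q_C2b (a := a) (q := q) hX r) ht.2 (rho_right hζ ht01) x
      have g4 := (PP_t (q := q) hH C2b_tanh ha ht.2 x).hasDerivWithinAt (s := Ici t)
      exact g1.sub ((g2.add (g3.const_mul (β ^ 2))).add (g4.const_mul (y - x)))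
    · have g1 := HasDerivAt.comp_const_add y 0 (f := f t) (by simpa using (hd t ht01' y).1)
      have g2 := HasDerivAt.comp_const_add x 0 (f := PP a q G t) (by simpa using hPG1 t x)
      have g3 := HasDerivAt.comp_const_add x 0 (f := RR a q (rho ζ) (Q0 a q) t)
        (by simpa using hR1 t x)
      have g4 := HasDerivAt.comp_const_add x 0 (f := PP a q Real.tanh t) (by simpa using hA1 t x)
      have g5 := g1.sub ((g2.add (g3.const_mul (β ^ 2))).add (g4.const_mul (y - x)))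
      simp only [add_sub_add_right_eq_sub]
      exact g5
    · have g1 := HasDerivAt.comp_const_add y 0 (f := fx t) (by simpa using (hd t ht01' y).2)
      have g2 := HasDerivAt.comp_const_add x 0 (f := PP a q G1 t) (by simpa using hPG2 t x)
      have g3 := HasDerivAt.comp_const_add x 0 (f := RR a q (rho ζ) (Q1 a q) t)
        (by simpa using hR2 t x)
      have g4 := HasDerivAt.comp_const_add x 0 (f := PP a q th1 t) (by simpa using hA2 t x)
      have g5 := g1.sub ((g2.add (g3.const_mul (β ^ 2))).add (g4.const_mul (y - x)))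
      simp only [add_sub_add_right_eq_sub]
      exact g5
    · have g1 : HasDerivAt (fun u : ℝ => y - u) (-1) x := by
        simpa using (hasDerivAt_id x).const_sub y
      have g2 := g1.mul (hA1 t x)
      have g3 := ((hPG1 t x).add ((hR1 t x).const_mul (β ^ 2))).add g2
      have g4 := g3.const_sub (f t y)
      refine g4.congr_deriv ?_
      ring
    · have g1 : HasDerivAt (fun u : ℝ => u - x) 1 y := by
        simpa using (hasDerivAt_id y).sub_const x
      have g2 := g1.mul_const (PP a q Real.tanh t x)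
      have g3 := g2.const_add (PP a q G t x + β ^ 2 * RR a q (rho ζ) (Q0 a q) t x)
      have g4 := (hd t ht01' y).1.sub g3
      refine g4.congr_deriv ?_
      ring
    · simpa using hK0
    · have h1 : |PP a q Real.tanh t x| ≤ 1 := PP_bd abs_tanh t x
      have h2 := rho_bd hζ t
      rw [abs_mul, abs_mul, abs_of_pos ha]
      have h3 : a * |rho ζ t| ≤ a * 1 := mul_le_mul_of_nonneg_left h2 ha.le
      have h4 : a * |rho ζ t| * |PP a q Real.tanh t x| ≤ a * 1 * 1 :=
        mul_le_mul h3 h1 (abs_nonneg _) (by positivity)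
      linarith
    · have h1 : -gi β ζ fx fxx t y = -(a / 2) * (fxx t y + rho ζ t * fx t y ^ 2) := by
        unfold gi; rw [hβ2]; ring
      have h2 : (0 : ℝ) ≤ (a / 2) * rho ζ t * (fx t y - PP a q Real.tanh t x) ^ 2 := by
        have := rho_nn hζ t
        positivity
      simp only [h1, ← hβ2]
      unfold Q0
      nlinarith [h2]
  · -- terminal value
    intro x y
    have h1 : RR a q (rho ζ) (Q0 a q) q x = 0 := by unfold RR; simp
    rw [h1, PP_q, PP_q]
    have := hterm x y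
    linarith
  · -- growth
    intro t ht x y
    have ht01 : t ∈ Icc (0 : ℝ) 1 := hsub ht
    have h1 : -(β ^ 2 * (C + C ^ 2)) ≤ f t y := by
      rw [sol_eq heq ht01 y]
      have h2 : 0 ≤ Real.log (Real.cosh y) := Real.log_nonneg (Real.one_le_cosh y)
      have h3 : |∫ r in t..1, gi β ζ fx fxx r y| ≤ β ^ 2 * (C + C ^ 2) * |1 - t| := by
        rw [← Real.norm_eq_abs]
        refine intervalIntegral.norm_integral_le_of_norm_le_const fun r hr => ?_
        rw [uIoc_of_le ht01.2] at hr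
        exact gi_bd hζ hC ⟨ht01.1.trans hr.1.le, hr.2⟩ y
      have h4 : |1 - t| ≤ 1 := by
        rw [abs_of_nonneg (by linarith [ht01.2])]; linarith [ht01.1]
      have h5 : β ^ 2 * (C + C ^ 2) * |1 - t| ≤ β ^ 2 * (C + C ^ 2) * 1 :=
        mul_le_mul_of_nonneg_left h4 (by positivity)
      have h6 := (abs_le.mp (h3.trans h5)).1
      linarith
    have h2 : PP a q G t x ≤ M + CG * |x| := by
      have h3 := lip_of_deriv (hPG1 t) (PP_bd (fun x => (hCG x).1) t) x
      have h4 := (abs_le.mp h3).2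
      have h5 := (abs_le.mp (hMb t ht)).2
      linarith
    have h3 : RR a q (rho ζ) (Q0 a q) t x ≤ 6 := by
      have h4 : |RR a q (rho ζ) (Q0 a q) t x| ≤ 6 * |q - t| := by
        unfold RR
        rw [← Real.norm_eq_abs]
        refine intervalIntegral.norm_integral_le_of_norm_le_const fun r _ => ?_
        rw [Real.norm_eq_abs]
        exact RR_bd (rho_bd hζ) Q0_bd t x r
      have h5 : |q - t| ≤ 1 := by
        rw [abs_of_nonneg (by linarith [ht.2])]; linarith [ht.1]
      have h6 := (abs_le.mp h4).2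
      linarith
    have h4 : (y - x) * PP a q Real.tanh t x ≤ |x| + |y| := by
      have h5 : |PP a q Real.tanh t x| ≤ 1 := PP_bd abs_tanh t x
      calc (y - x) * PP a q Real.tanh t x ≤ |(y - x) * PP a q Real.tanh t x| := le_abs_self _
        _ = |y - x| * |PP a q Real.tanh t x| := abs_mul _ _
        _ ≤ |y - x| * 1 := mul_le_mul_of_nonneg_left h5 (abs_nonneg _)
        _ ≤ |x| + |y| := by rw [mul_one]; have := abs_sub y x; linarith
    have h5 : β ^ 2 * RR a q (rho ζ) (Q0 a q) t x ≤ β ^ 2 * 6 :=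
      mul_le_mul_of_nonneg_left h3 (sq_nonneg β)
    have hx := abs_nonneg x
    have hy := abs_nonneg y
    have hN : 0 ≤ β ^ 2 * (C + C ^ 2) := by positivity
    have h6 : CG * |x| + (|x| + |y|) + (β ^ 2 * (C + C ^ 2) + M + β ^ 2 * 6) ≤
        K * (1 + |x| + |y|) := by
      rw [hK]
      nlinarith [mul_nonneg hCG0 hy, mul_nonneg hN hx, mul_nonneg hN hy, mul_nonneg hM0 hx,
        mul_nonneg hM0 hy, mul_nonneg ha.le hx, mul_nonneg ha.le hy,
        mul_nonneg (sq_nonneg β) hx, mul_nonneg (sq_nonneg β) hy]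
    linarith

end Pool.TH325.AT
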