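import Mathlib
import Pool.Agent.TH325.AT.Tanh
import Pool.Agent.TH325.AT.Fsol

set_option autoImplicit false

open MeasureTheory ProbabilityTheory Set Filter Topology

namespace Pool.TH325.AT

open Pool.TH198.AT

/-- `∫_t^q σ(r) k(a(r-t), x) dr` -/
noncomputable def RK (a q : ℝ) (σ : ℝ → ℝ) (k : ℝ → ℝ → ℝ) (t x : ℝ) : ℝ :=
  ∫ r in t..q, σ r * k (a * (r - t)) x

section RK
variable {a q C : ℝ} {σ : ℝ → ℝ} {k k1 k2 : ℝ → ℝ → ℝ}

theorem RK_meas (hσ : Measurable σ) (hk : Continuous (fun p : ℝ × ℝ => k p.1 p.2)) (t x : ℝ) :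
    Measurable (fun r => σ r * k (a * (r - t)) x) :=
  hσ.mul (Continuous.comp (g := fun p : ℝ × ℝ => k p.1 p.2) (f := fun r : ℝ => (a * (r - t), x))
    hk (by fun_prop)).measurable

theorem RK_bd (hσb : ∀ r, |σ r| ≤ 1) (hb : ∀ r x, |k r x| ≤ C) (t x r : ℝ) :
    |σ r * k (a * (r - t)) x| ≤ C := by
  rw [abs_mul]
  calc |σ r| * |k (a * (r - t)) x| ≤ 1 * C :=
        mul_le_mul (hσb r) (hb _ _) (abs_nonneg _) zero_le_one
    _ = C := one_mul C

theorem RK_int (hσ : Measurable σ) (hσb : ∀ r, |σ r| ≤ 1)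
    (hk : Continuous (fun p : ℝ × ℝ => k p.1 p.2)) (hb : ∀ r x, |k r x| ≤ C) (t x u v : ℝ) :
    IntervalIntegrable (fun r => σ r * k (a * (r - t)) x) volume u v := by
  refine (intervalIntegrable_const (c := C)).mono_fun
    (RK_meas hσ hk t x).aestronglyMeasurable ?_
  refine Filter.Eventually.of_forall fun r => ?_
  have h1 := RK_bd (a := a) hσb hb t x r
  simp only [Real.norm_eq_abs]
  exact h1.trans (le_abs_self _)

theorem RK_x (hσ : Measurable σ) (hσb : ∀ r, |σ r| ≤ 1)
    (hk : Continuous (fun p : ℝ × ℝ => k p.1 p.2)) (hb : ∀ r x, |k r x| ≤ C)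
    (hk1 : Continuous (fun p : ℝ × ℝ => k1 p.1 p.2)) (hb1 : ∀ r x, |k1 r x| ≤ C)
    (hd : ∀ r x, HasDerivAt (k r) (k1 r x) x) (t x : ℝ) :
    HasDerivAt (RK a q σ k t) (RK a q σ k1 t x) x := by
  unfold RK
  refine (intervalIntegral.hasDerivAt_integral_of_dominated_loc_of_deriv_le
    (F := fun x r => σ r * k (a * (r - t)) x)
    (F' := fun x r => σ r * k1 (a * (r - t)) x)
    (bound := fun _ => C) (s := univ) univ_mem ?_ ?_ ?_ ?_ ?_ ?_).2
  · exact Filter.Eventually.of_forall fun x => (RK_meas hσ hk t x).aestronglyMeasurable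
  · exact RK_int hσ hσb hk hb t x t q
  · exact (RK_meas hσ hk1 t x).aestronglyMeasurable
  · refine Filter.Eventually.of_forall fun r _ x _ => ?_
    rw [Real.norm_eq_abs]; exact RK_bd hσb hb1 t x r
  · exact intervalIntegrable_const
  · refine Filter.Eventually.of_forall fun r _ x _ => ?_
    exact (hd _ x).const_mul _

theorem RK_cont (hσ : Measurable σ) (hσb : ∀ r, |σ r| ≤ 1)
    (hk : Continuous (fun p : ℝ × ℝ => k p.1 p.2)) (hb : ∀ r x, |k r x| ≤ C) :
    Continuous (fun p : ℝ × ℝ => RK a q σ k p.1 p.2) := by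
  rw [continuous_iff_continuousAt]
  rintro ⟨t₀, x₀⟩
  have h1 : ContinuousAt (fun p : (ℝ × ℝ) × ℝ => ∫ r in q..p.2,
      σ r * k (a * (r - p.1.1)) p.1.2) ((t₀, x₀), t₀) := by
    refine intervalIntegral.continuousAt_parametric_primitive_of_dominated
      (F := fun (p : ℝ × ℝ) r => σ r * k (a * (r - p.1)) p.2)
      (fun _ => C) (min q t₀ - 1) (max q t₀ + 1) ?_ ?_ ?_ ?_ ?_ ?_ ?_
    · intro p; exact (RK_meas hσ hk p.1 p.2).aestronglyMeasurable
    · refine Filter.Eventually.of_forall fun p => Filter.Eventually.of_forall fun r => ?_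
      rw [Real.norm_eq_abs]; exact RK_bd hσb hb p.1 p.2 r
    · exact intervalIntegrable_const
    · refine Filter.Eventually.of_forall fun r => ?_
      apply ContinuousAt.mul continuousAt_const
      exact (Continuous.comp (g := fun p : ℝ × ℝ => k p.1 p.2)
        (f := fun p : ℝ × ℝ => (a * (r - p.1), p.2)) hk (by fun_prop)).continuousAt
    · exact ⟨by have := min_le_left q t₀; linarith, by have := le_max_left q t₀; linarith⟩
    · exact ⟨by have := min_le_right q t₀; linarith, by have := le_max_right q t₀; linarith⟩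
    · simp
  have h2 : ContinuousAt (fun p : ℝ × ℝ => (p, p.1)) (t₀, x₀) := by fun_prop
  have h3 := (ContinuousAt.comp (f := fun p : ℝ × ℝ => (p, p.1)) (x := (t₀, x₀)) h1 h2).neg
  refine h3.congr (Filter.Eventually.of_forall fun p => ?_)
  simp only [RK]
  rw [intervalIntegral.integral_symm]
  simp

end RK

/-- tangent line of `log cosh` -/
theorem logcosh_tangent (x y : ℝ) :
    Real.log (Real.cosh x) + (y - x) * Real.tanh x ≤ Real.log (Real.cosh y) := by
  have hcx := Real.cosh_pos x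
  have hcy := Real.cosh_pos y
  have h0 : Real.log (Real.cosh x) + (y - x) * Real.tanh x =
      Real.log (Real.cosh x * Real.exp ((y - x) * Real.tanh x)) := by
    rw [Real.log_mul hcx.ne' (Real.exp_pos _).ne', Real.log_exp]
  rw [h0]
  apply Real.log_le_log (by positivity)
  set m := Real.tanh x with hm
  set d := y - x with hd
  have h1 : Real.exp (d * m) ≤ (1 + m) / 2 * Real.exp d + (1 - m) / 2 * Real.exp (-d) := by
    have h2 := convexOn_exp.2 (mem_univ d) (mem_univ (-d))
      (by have := (Real.neg_one_lt_tanh x).le; rw [hm]; linarith : 0 ≤ (1 + m) / 2)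
      (by have := (Real.tanh_lt_one x).le; rw [hm]; linarith : 0 ≤ (1 - m) / 2)
      (by ring)
    simp only [smul_eq_mul] at h2
    refine le_trans (le_of_eq ?_) h2
    congr 1; ring
  have h3 : Real.cosh y = Real.cosh x * Real.cosh d + Real.sinh x * Real.sinh d := by
    rw [← Real.cosh_add]; congr 1; rw [hd]; ring
  have h4 : Real.sinh x = Real.cosh x * m := by
    rw [hm, Real.tanh_eq_sinh_div_cosh]; field_simp
  have h5 : (1 + m) / 2 * Real.exp d + (1 - m) / 2 * Real.exp (-d) =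
      Real.cosh d + m * Real.sinh d := by
    rw [Real.cosh_eq, Real.sinh_eq]; ring
  calc Real.cosh x * Real.exp (d * m) ≤
      Real.cosh x * ((1 + m) / 2 * Real.exp d + (1 - m) / 2 * Real.exp (-d)) :=
        mul_le_mul_of_nonneg_left h1 hcx.le
    _ = Real.cosh y := by rw [h5, h3, h4]; ring

theorem hasDerivAt_logcosh (x : ℝ) :
    HasDerivAt (fun x => Real.log (Real.cosh x)) (Real.tanh x) x := by
  have h := (Real.hasDerivAt_cosh x).log (Real.cosh_pos x).ne'
  refine h.congr_deriv ?_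
  rw [Real.tanh_eq_sinh_div_cosh]

theorem logcosh_le (x : ℝ) : Real.log (Real.cosh x) ≤ |x| := by
  have h := logcosh_tangent x 0
  rw [Real.cosh_zero, Real.log_one] at h
  have h1 : (x - 0) * Real.tanh x ≤ |x| := by
    calc (x - 0) * Real.tanh x ≤ |(x - 0) * Real.tanh x| := le_abs_self _
      _ = |x| * |Real.tanh x| := by rw [sub_zero, abs_mul]
      _ ≤ |x| * 1 := mul_le_mul_of_nonneg_left (abs_tanh x) (abs_nonneg _)
      _ = |x| := mul_one _
  linarith

theorem t_PH1 (hKD : St_KD) (hL : St_LEIB) (hM : St_MAX) : St_PH1 := by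
  intro β q ζ f hβ hq0 hq1 hζ hf x₀ y₀
  obtain ⟨fx, fxx, hd, hc1, hc2, ⟨C, hC⟩, heq⟩ := hf
  obtain ⟨Kx, Kxx, CK, hKx, hKw, hK0c, hK1c, hK2c, hKb, hK0⟩ := hKD
  set a : ℝ := 2 * β ^ 2 with ha_def
  have ha : 0 < a := by positivity
  have hβ2 : a / 2 = β ^ 2 := by rw [ha_def]; ring
  have hC0 : 0 ≤ C := (abs_nonneg _).trans (hC 0 ⟨le_rfl, zero_le_one⟩ 0).1
  have hCK0 : 0 ≤ CK := (abs_nonneg _).trans (hKb 0 0 le_rfl).1
  have hsub : Icc q 1 ⊆ Icc (0 : ℝ) 1 := Icc_subset_Icc_left hq0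
  set k0 : ℝ → ℝ → ℝ := fun w x => KK (max w 0) x with hk0
  set k1 : ℝ → ℝ → ℝ := fun w x => Kx (max w 0) x with hk1
  set k2 : ℝ → ℝ → ℝ := fun w x => Kxx (max w 0) x with hk2
  set σ : ℝ → ℝ := fun r => rho ζ r - 1 with hσdef
  have hmx : ∀ w : ℝ, 0 ≤ max w 0 := fun w => le_max_right _ _
  have hmaps : MapsTo (fun p : ℝ × ℝ => (max p.1 0, p.2)) univ (Ici (0 : ℝ) ×ˢ univ) :=
    fun p _ => ⟨hmx _, mem_univ _⟩
  have k0c : Continuous (fun p : ℝ × ℝ => k0 p.1 p.2) :=
    continuousOn_univ.mp (ContinuousOn.comp (g := fun p : ℝ × ℝ => KK p.1 p.2)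
      (f := fun p : ℝ × ℝ => (max p.1 0, p.2)) hK0c (by fun_prop) hmaps)
  have k1c : Continuous (fun p : ℝ × ℝ => k1 p.1 p.2) :=
    continuousOn_univ.mp (ContinuousOn.comp (g := fun p : ℝ × ℝ => Kx p.1 p.2)
      (f := fun p : ℝ × ℝ => (max p.1 0, p.2)) hK1c (by fun_prop) hmaps)
  have k2c : Continuous (fun p : ℝ × ℝ => k2 p.1 p.2) :=
    continuousOn_univ.mp (ContinuousOn.comp (g := fun p : ℝ × ℝ => Kxx p.1 p.2)
      (f := fun p : ℝ × ℝ => (max p.1 0, p.2)) hK2c (by fun_prop) hmaps)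
  have k0b : ∀ w x, |k0 w x| ≤ CK := fun w x => (hKb _ x (hmx w)).1
  have k1b : ∀ w x, |k1 w x| ≤ CK := fun w x => (hKb _ x (hmx w)).2.1
  have k2b : ∀ w x, |k2 w x| ≤ CK := fun w x => (hKb _ x (hmx w)).2.2
  have hσm : Measurable σ := (rho_meas hζ).sub measurable_const
  have hσb : ∀ r, |σ r| ≤ 1 := by
    intro r
    have h1 := rho_nn hζ r
    have h2 := (abs_le.mp (rho_bd hζ r)).2
    rw [abs_le]; simp only [hσdef]; constructor <;> linarith
  have hR1 : ∀ t x, HasDerivAt (RK a 1 σ k0 t) (RK a 1 σ k1 t x) x := fun t x =>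
    RK_x hσm hσb k0c k0b k1c k1b (fun r x => (hKx _ x (hmx r)).1) t x
  have hR2 : ∀ t x, HasDerivAt (RK a 1 σ k1 t) (RK a 1 σ k2 t x) x := fun t x =>
    RK_x hσm hσb k1c k1b k2c k2b (fun r x => (hKx _ x (hmx r)).2) t x
  have hRc : Continuous (fun p : ℝ × ℝ => RK a 1 σ k0 p.1 p.2) := RK_cont hσm hσb k0c k0b
  have hRt : ∀ t ∈ Ico q 1, ∀ x, HasDerivWithinAt (fun τ => RK a 1 σ k0 τ x)
      (-(σ t * Real.tanh x ^ 2) - a / 2 * RK a 1 σ k2 t x - a * Real.tanh x * RK a 1 σ k1 t x)
      (Ici t) t := by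
    intro t ht x
    have ht01 : t ∈ Ico (0 : ℝ) 1 := ⟨hq0.trans ht.1, ht.2⟩
    have h1 := hL a t 1 1 σ (fun _ w => k0 w x) (fun _ w => k2 w x / 2 + Real.tanh x * k1 w x)
      ha ht.2 hσm (fun r _ => hσb r) ((rho_right hζ ht01).sub continuousWithinAt_const) ?_ ?_ ?_
    · have h2 : -(σ t * Real.tanh x ^ 2) - a / 2 * RK a 1 σ k2 t x -
          a * Real.tanh x * RK a 1 σ k1 t x = -(σ t * k0 0 x) - a * ∫ r in t..1,
            σ r * (k2 (a * (r - t)) x / 2 + Real.tanh x * k1 (a * (r - t)) x) := by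
        have h3 : k0 0 x = Real.tanh x ^ 2 := by
          simp only [hk0, max_self]; exact hK0 x
        have h4 : (∫ r in t..1, σ r * (k2 (a * (r - t)) x / 2 + Real.tanh x * k1 (a * (r - t)) x)) =
            RK a 1 σ k2 t x / 2 + Real.tanh x * RK a 1 σ k1 t x := by
          have h5 : (fun r => σ r * (k2 (a * (r - t)) x / 2 + Real.tanh x * k1 (a * (r - t)) x)) =
              fun r => (σ r * k2 (a * (r - t)) x) / 2 +
                Real.tanh x * (σ r * k1 (a * (r - t)) x) := by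
            funext r; ring
          rw [h5, intervalIntegral.integral_add
            ((RK_int hσm hσb k2c k2b t x t 1).div_const 2)
            ((RK_int hσm hσb k1c k1b t x t 1).const_mul _),
            intervalIntegral.integral_div, intervalIntegral.integral_const_mul]
          rfl
        rw [h3, h4]; ring
      rw [h2]
      exact h1
    · intro r _ w hw
      have h2 := hKw w x hw
      have h3 : k2 w x / 2 + Real.tanh x * k1 w x = Kxx w x / 2 + Real.tanh x * Kx w x := by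
        simp only [hk1, hk2, max_eq_left hw.le]
      rw [h3]
      refine h2.congr_of_eventuallyEq ?_
      filter_upwards [lt_mem_nhds hw] with v hv
      simp only [hk0, max_eq_left (le_of_lt hv)]
    · exact (Continuous.comp (g := fun p : ℝ × ℝ => k0 p.1 p.2) (f := fun p : ℝ × ℝ => (p.2, x))
        k0c (by fun_prop)).continuousOn
    · have h2 : Continuous (fun p : ℝ × ℝ => k2 p.2 x) :=
        Continuous.comp (g := fun p : ℝ × ℝ => k2 p.1 p.2) (f := fun p : ℝ × ℝ => (p.2, x))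
          k2c (by fun_prop)
      have h3 : Continuous (fun p : ℝ × ℝ => k1 p.2 x) :=
        Continuous.comp (g := fun p : ℝ × ℝ => k1 p.1 p.2) (f := fun p : ℝ × ℝ => (p.2, x))
          k1c (by fun_prop)
      exact ((h2.div_const 2).add (continuous_const.mul h3)).continuousOn
  set K : ℝ := β ^ 2 * (C + C ^ 2) + β ^ 2 + β ^ 2 * CK + 2 + a with hK
  have hN : 0 ≤ β ^ 2 * (C + C ^ 2) := by positivity
  have hN2 : 0 ≤ β ^ 2 * CK := by positivity
  have hK1 : a ≤ K := by rw [hK]; nlinarith [sq_nonneg β]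
  have key := hM a q 1 K
    (fun t x y => f t y - (Real.log (Real.cosh x) + β ^ 2 * (1 - t) +
      β ^ 2 * RK a 1 σ k0 t x + (y - x) * Real.tanh x))
    (fun t x y => -gi β ζ fx fxx t y - (-β ^ 2 +
      β ^ 2 * (-(σ t * Real.tanh x ^ 2) - a / 2 * RK a 1 σ k2 t x -
        a * Real.tanh x * RK a 1 σ k1 t x)))
    (fun t x y => fx t y - (Real.tanh x + β ^ 2 * RK a 1 σ k1 t x + (y - x) * th1 x))
    (fun t x y => fxx t y - (th1 x + β ^ 2 * RK a 1 σ k2 t x + (y - x) * th2 x))
    (fun t x y => -(β ^ 2 * RK a 1 σ k1 t x + (y - x) * th1 x))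
    (fun t x y => fx t y - Real.tanh x)
    (fun _ x _ => a * Real.tanh x)
    (fun t x _ => a * rho ζ t * Real.tanh x)
    ha hq1 ?_ ?_ ?_ ?_ q ⟨le_rfl, hq1⟩ x₀ y₀
  · have e2 : RK a 1 σ k0 q x₀ = ∫ r in q..1, (ζ r - 1) * KK (2 * β ^ 2 * (r - q)) x₀ := by
      unfold RK
      apply intervalIntegral.integral_congr
      intro r hr
      rw [uIcc_of_le hq1] at hr
      simp only [hk0, hσdef]
      rw [rho_eq (hsub hr), max_eq_left (mul_nonneg ha.le (by linarith [hr.1]))]
    rw [e2] at key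
    linarith
  · have hfc : ContinuousOn (fun p : ℝ × ℝ × ℝ => f p.1 p.2.2) (Icc q 1 ×ˢ univ) :=
      ContinuousOn.comp (g := fun p : ℝ × ℝ => f p.1 p.2) (f := fun p : ℝ × ℝ × ℝ => (p.1, p.2.2))
        (sol_cont hζ hd hc1 hc2 hC heq) (by fun_prop) (fun p hp => ⟨hsub hp.1, mem_univ _⟩)
    have h1 : Continuous (fun p : ℝ × ℝ × ℝ => Real.log (Real.cosh p.2.1)) :=
      (Real.continuous_cosh.comp (by fun_prop : Continuous fun p : ℝ × ℝ × ℝ => p.2.1)).log
        (fun p => (Real.cosh_pos _).ne')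
    have h2 : Continuous (fun p : ℝ × ℝ × ℝ => RK a 1 σ k0 p.1 p.2.1) :=
      Continuous.comp (g := fun p : ℝ × ℝ => RK a 1 σ k0 p.1 p.2)
        (f := fun p : ℝ × ℝ × ℝ => (p.1, p.2.1)) hRc (by fun_prop)
    have h3 : Continuous (fun p : ℝ × ℝ × ℝ => Real.tanh p.2.1) :=
      continuous_tanh.comp (by fun_prop : Continuous fun p : ℝ × ℝ × ℝ => p.2.1)
    have h4 : Continuous (fun p : ℝ × ℝ × ℝ => p.2.2 - p.2.1) := by fun_prop
    have h5 : Continuous (fun p : ℝ × ℝ × ℝ => β ^ 2 * (1 - p.1)) := by fun_prop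
    exact hfc.sub (((h1.add h5).add (continuous_const.mul h2)).add (h4.mul h3)).continuousOn
  · intro t ht x y
    have ht01 : t ∈ Ico (0 : ℝ) 1 := ⟨hq0.trans ht.1, ht.2⟩
    have ht01' : t ∈ Icc (0 : ℝ) 1 := ⟨ht01.1, ht01.2.le⟩
    refine ⟨?_, ?_, ?_, ?_, ?_, ?_, ?_, ?_⟩
    · have g1 := sol_right (β := β) hζ hc1 hc2 heq y ht01
      have g2 : HasDerivWithinAt (fun τ : ℝ => β ^ 2 * (1 - τ)) (-β ^ 2) (Ici t) t := by
        have := (((hasDerivAt_id t).const_sub 1).const_mul (β ^ 2)).hasDerivWithinAt (s := Ici t)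
        simpa using this
      have g3 := (hRt t ht x).const_mul (β ^ 2)
      have g4 := ((g2.const_add (Real.log (Real.cosh x))).add g3).add_const
        ((y - x) * Real.tanh x)
      exact g1.sub g4
    · have g1 := HasDerivAt.comp_const_add y 0 (f := f t) (by simpa using (hd t ht01' y).1)
      have g2 := HasDerivAt.comp_const_add x 0 (f := fun x => Real.log (Real.cosh x))
        (by simpa using hasDerivAt_logcosh x)
      have g3 := HasDerivAt.comp_const_add x 0 (f := RK a 1 σ k0 t) (by simpa using hR1 t x)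
      have g4 := HasDerivAt.comp_const_add x 0 (f := Real.tanh) (by simpa using hasDerivAt_tanh x)
      have g5 := g1.sub (((g2.add_const (β ^ 2 * (1 - t))).add (g3.const_mul (β ^ 2))).add
        (g4.const_mul (y - x)))
      simp only [add_sub_add_right_eq_sub]
      exact g5
    · have g1 := HasDerivAt.comp_const_add y 0 (f := fx t) (by simpa using (hd t ht01' y).2)
      have g2 := HasDerivAt.comp_const_add x 0 (f := Real.tanh) (by simpa using hasDerivAt_tanh x)
      have g3 := HasDerivAt.comp_const_add x 0 (f := RK a 1 σ k1 t) (by simpa using hR2 t x)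
      have g4 := HasDerivAt.comp_const_add x 0 (f := th1) (by simpa using hasDerivAt_th1 x)
      have g5 := g1.sub ((g2.add (g3.const_mul (β ^ 2))).add (g4.const_mul (y - x)))
      simp only [add_sub_add_right_eq_sub]
      exact g5
    · have g1 : HasDerivAt (fun u : ℝ => y - u) (-1) x := by
        simpa using (hasDerivAt_id x).const_sub y
      have g2 := g1.mul (hasDerivAt_tanh x)
      have g3 := ((((hasDerivAt_logcosh x).add_const (β ^ 2 * (1 - t))).add
        ((hR1 t x).const_mul (β ^ 2))).add g2).const_sub (f t y)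
      refine g3.congr_deriv ?_
      ring
    · have g1 : HasDerivAt (fun u : ℝ => u - x) 1 y := by
        simpa using (hasDerivAt_id y).sub_const x
      have g2 := g1.mul_const (Real.tanh x)
      have g3 := g2.const_add (Real.log (Real.cosh x) + β ^ 2 * (1 - t) +
        β ^ 2 * RK a 1 σ k0 t x)
      have g4 := (hd t ht01' y).1.sub g3
      refine g4.congr_deriv ?_
      ring
    · rw [abs_mul, abs_of_pos ha]
      have h4 : a * |Real.tanh x| ≤ a * 1 := mul_le_mul_of_nonneg_left (abs_tanh x) ha.le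
      linarith
    · have h2 := rho_bd hζ t
      rw [abs_mul, abs_mul, abs_of_pos ha]
      have h3 : a * |rho ζ t| ≤ a * 1 := mul_le_mul_of_nonneg_left h2 ha.le
      have h4 : a * |rho ζ t| * |Real.tanh x| ≤ a * 1 * 1 :=
        mul_le_mul h3 (abs_tanh x) (abs_nonneg _) (by positivity)
      linarith
    · have h1 : -gi β ζ fx fxx t y = -(a / 2) * (fxx t y + rho ζ t * fx t y ^ 2) := by
        unfold gi; rw [hβ2]; ring
      have h2 : (0 : ℝ) ≤ (a / 2) * rho ζ t * (fx t y - Real.tanh x) ^ 2 := by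
        have := rho_nn hζ t
        positivity
      simp only [h1, ← hβ2, hσdef]
      unfold th1 th2
      nlinarith [h2]
  · intro x y
    have h1 : RK a 1 σ k0 1 x = 0 := by unfold RK; simp
    have h2 : f 1 y = Real.log (Real.cosh y) := by
      rw [heq 1 ⟨zero_le_one, le_rfl⟩ y]; simp
    have h3 := logcosh_tangent x y
    rw [h1, h2]
    linarith
  · intro t ht x y
    have ht01 : t ∈ Icc (0 : ℝ) 1 := hsub ht
    have h1 : -(β ^ 2 * (C + C ^ 2)) ≤ f t y := by
      rw [sol_eq heq ht01 y]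
      have h2 : 0 ≤ Real.log (Real.cosh y) := Real.log_nonneg (Real.one_le_cosh y)
      have h3 : |∫ r in t..1, gi β ζ fx fxx r y| ≤ β ^ 2 * (C + C ^ 2) * |1 - t| := by
        rw [← Real.norm_eq_abs]
        refine intervalIntegral.norm_integral_le_of_norm_le_const fun r hr => ?_
        rw [uIoc_of_le ht01.2] at hr
        exact gi_bd hζ hC ⟨ht01.1.trans hr.1.le, hr.2⟩ y
      have h4 : |1 - t| ≤ 1 := by
        rw [abs_of_nonneg (by linarith [ht01.2])]; linarith [ht01.1]
      have h5 : β ^ 2 * (C + C ^ 2) * |1 - t| ≤ β ^ 2 * (C + C ^ 2) * 1 :=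
        mul_le_mul_of_nonneg_left h4 (by positivity)
      have h6 := (abs_le.mp (h3.trans h5)).1
      linarith
    have h2 := logcosh_le x
    have h3 : RK a 1 σ k0 t x ≤ CK := by
      have h4 : |RK a 1 σ k0 t x| ≤ CK * |1 - t| := by
        unfold RK
        rw [← Real.norm_eq_abs]
        refine intervalIntegral.norm_integral_le_of_norm_le_const fun r _ => ?_
        rw [Real.norm_eq_abs]
        exact RK_bd hσb k0b t x r
      have h5 : |1 - t| ≤ 1 := by
        rw [abs_of_nonneg (by linarith [ht01.2])]; linarith [ht01.1]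
      have h6 : CK * |1 - t| ≤ CK * 1 := mul_le_mul_of_nonneg_left h5 hCK0
      have h7 := (abs_le.mp (h4.trans h6)).2
      linarith
    have h4 : (y - x) * Real.tanh x ≤ |x| + |y| := by
      calc (y - x) * Real.tanh x ≤ |(y - x) * Real.tanh x| := le_abs_self _
        _ = |y - x| * |Real.tanh x| := abs_mul _ _
        _ ≤ |y - x| * 1 := mul_le_mul_of_nonneg_left (abs_tanh x) (abs_nonneg _)
        _ ≤ |x| + |y| := by rw [mul_one]; have := abs_sub y x; linarith
    have h5 : β ^ 2 * RK a 1 σ k0 t x ≤ β ^ 2 * CK :=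
      mul_le_mul_of_nonneg_left h3 (sq_nonneg β)
    have h7 : β ^ 2 * (1 - t) ≤ β ^ 2 * 1 :=
      mul_le_mul_of_nonneg_left (by linarith [ht01.1]) (sq_nonneg β)
    have hx := abs_nonneg x
    have hy := abs_nonneg y
    have h6 : |x| + (|x| + |y|) + (β ^ 2 * (C + C ^ 2) + β ^ 2 * 1 + β ^ 2 * CK) ≤
        K * (1 + |x| + |y|) := by
      rw [hK]
      nlinarith [mul_nonneg hN hx, mul_nonneg hN hy, mul_nonneg hN2 hx,
        mul_nonneg hN2 hy, mul_nonneg ha.le hx, mul_nonneg ha.le hy,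
        mul_nonneg (sq_nonneg β) hx, mul_nonneg (sq_nonneg β) hy]
    linarith

end Pool.TH325.AT
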